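import Pool.Agent.V7H18.HellyD

/-!
# There is no Helly number for consistently ordered hyperplane transversals in dimension `d ≥ 3`

For every `d ≥ 3` and every `h` there is a `(d-1)`-ordered family of pairwise disjoint compact convex
sets in `ℝ^d` such that every subfamily of at most `h` members is met by an oriented hyperplane
consistently with the ordering, but the whole family is not; the points which give the ordering are
in general position.

Construction for `d = 3`.  Two members are the points `(-1,0,0)` and `(0,0,0)`; a plane through them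
which meets the other members is `z = θ y`.  The other members form `N = h + 1` clusters of three sets:
two segments `y = const`, on which `x` moves with speed `±η` in `θ`, and a planar set `x = const`
between them.  The three sets of the cluster `l` can be met in the right orientation by `z = θ y`,
`0 ≤ θ ≤ N`, if and only if `θ` is not in `[l, l+1]`; all other triples always have the right
orientation.  For `d > 3` further points and small generic coordinates are added one by one.
-/

set_option autoImplicit false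

namespace Pool.Agent.Results.MP_b157f3_co.NoHellyNumberH18

open Pool.Agent.V7H18.Helly

/-- The determinant whose sign is the orientation of the `k + 1` points `p (s 0), …, p (s k)` of
`ℝ^k`; its rows are `1` followed by the coordinates of the point. -/
noncomputable def ori {k : ℕ} {ι : Type} (p : ι → Fin k → ℝ) (s : Fin (k + 1) → ι) : ℝ :=
  (Matrix.of fun j => (Fin.cons 1 (p (s j)) : Fin (k + 1) → ℝ)).det

/-- Some oriented hyperplane of `ℝ^(k+1)` meets the subfamily `B` of the family `a` consistently with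
the `k`-ordering given by the points `p i` of `ℝ^k`.  The oriented hyperplane is the range of the
injective affine map `φ : ℝ^k → ℝ^(k+1)` (whose inverse is its oriented affine coordinate system),
and the point chosen in `a i` is `φ (q i)`. -/
def MetConsistently {k : ℕ} {ι : Type} (a : ι → Set (Fin (k + 1) → ℝ)) (p : ι → Fin k → ℝ)
    (B : Finset ι) : Prop :=
  ∃ (φ : (Fin k → ℝ) →ᵃ[ℝ] (Fin (k + 1) → ℝ)) (q : ι → Fin k → ℝ), Function.Injective φ ∧
    (∀ i ∈ B, φ (q i) ∈ a i) ∧
    ∀ s : Fin (k + 1) → ι, (∀ j, s j ∈ B) → SignType.sign (ori q s) = SignType.sign (ori p s)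

/-- The points `p i` of `ℝ^k` are in general position. -/
def GeneralPosition {k : ℕ} {ι : Type} (p : ι → Fin k → ℝ) : Prop :=
  ∀ s : Fin (k + 1) → ι, Function.Injective s → ori p s ≠ 0

/-- The property whose least `h` is `h(d)`, `d = k + 1`, for orderings given by points in general
position: for every `k`-ordered finite family of pairwise disjoint (nonempty) compact convex sets in
`ℝ^(k+1)`, if every subfamily of at most `h` members is met by an oriented hyperplane consistently
with the ordering, then so is the whole family. -/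
def HellyProperty (k h : ℕ) : Prop :=
  ∀ (ι : Type) [Fintype ι] (a : ι → Set (Fin (k + 1) → ℝ)) (p : ι → Fin k → ℝ),
    (∀ i, (a i).Nonempty ∧ Convex ℝ (a i) ∧ IsCompact (a i)) →
    (∀ i j, i ≠ j → Disjoint (a i) (a j)) → GeneralPosition p →
    (∀ B : Finset ι, B.card ≤ h → MetConsistently a p B) → MetConsistently a p Finset.univ

section

variable {m : ℕ} {ι : Type}

/-- the point with leading coordinates `x`, `y` -/
noncomputable def pt (L : ℝ) (x y : ℝ) (t : Fin m → ℝ) : Fin (m + 2) → ℝ :=
  L⁻¹ • (Fin.cons x (Fin.cons y t) : Fin (m + 2) → ℝ)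

/-- the embedding of three-space -/
noncomputable def emb (L : ℝ) (t : Fin m → ℝ) (b : ℝ × ℝ × ℝ) : Fin (m + 3) → ℝ :=
  L⁻¹ • (Fin.cons b.2.2 (Fin.cons b.1 (Fin.cons b.2.1 t)) : Fin (m + 3) → ℝ)

lemma det_lead (f L x y : Fin (m + 3) → ℝ) (t : Fin (m + 3) → Fin m → ℝ)
    (hL : ∀ i, L i = f i + ∑ j, t i j) :
    (Matrix.of fun j => (Fin.cons (L j) (Fin.cons (x j) (Fin.cons (y j) (t j))) :
      Fin (m + 3) → ℝ)).det = (Matrix.of fun j => row ![f j, x j, y j] (t j)).det := by
  set M : Matrix (Fin (m + 3)) (Fin (m + 3)) ℝ := Matrix.of fun j => row ![f j, x j, y j] (t j)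
    with hM
  set c : Fin (m + 3) → ℝ := Fin.cons 1 (Fin.cons 0 (Fin.cons 0 (fun _ => 1))) with hc
  have h1 := Matrix.det_updateCol_sum M 0 c
  have h2 : c 0 = 1 := rfl
  rw [h2, one_smul] at h1
  rw [← h1]
  congr 1
  ext i j
  rw [Matrix.updateCol_apply]
  refine Fin.cases ?_ (fun j => ?_) j
  · rw [if_pos rfl, Fin.sum_univ_succ, Fin.sum_univ_succ, Fin.sum_univ_succ]
    simp only [hc, hM, Matrix.of_apply, row, Fin.cons_zero, Fin.cons_succ, hL]
    simp
  · rw [if_neg (Fin.succ_ne_zero j)]
    simp only [hM, Matrix.of_apply, row, Fin.cons_succ]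
    rfl

lemma ori_pt (f L x y : ι → ℝ) (t : ι → Fin m → ℝ) (hL : ∀ i, L i = f i + ∑ j, t i j)
    (hL0 : ∀ i, 0 < L i) (s : Fin (m + 3) → ι) :
    ori (fun i => pt (L i) (x i) (y i) (t i)) s = (∏ j, (L (s j))⁻¹) *
      (Matrix.of fun j => row ![f (s j), x (s j), y (s j)] (t (s j))).det := by
  rw [← det_lead (fun j => f (s j)) (fun j => L (s j)) (fun j => x (s j)) (fun j => y (s j))
    (fun j => t (s j)) (fun j => hL _), ← Matrix.det_mul_column]
  unfold ori
  congr 1
  ext i j
  simp only [Matrix.of_apply]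
  refine Fin.cases ?_ (fun j => ?_) j
  · simp only [Fin.cons_zero]
    rw [inv_mul_cancel₀ (hL0 _).ne']
  · simp only [Fin.cons_succ, pt, Pi.smul_apply, smul_eq_mul]

/-- affine functions in coordinates -/
lemma affine_coord {k n : ℕ} (φ : (Fin k → ℝ) →ᵃ[ℝ] (Fin n → ℝ)) (l : Fin n) :
    ∃ g : Fin (k + 1) → ℝ, ∀ q : Fin k → ℝ, φ q l = ∑ c, (Fin.cons 1 q : Fin (k + 1) → ℝ) c * g c := by
  refine ⟨Fin.cons (φ 0 l) (fun c => φ.linear (Pi.single c 1) l), fun q => ?_⟩
  rw [Fin.sum_univ_succ]
  simp only [Fin.cons_zero, Fin.cons_succ, one_mul]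
  have h1 : φ q = φ.linear q + φ 0 := by
    have := φ.map_vadd 0 q
    simpa using this
  have h2 : q = ∑ c, q c • (Pi.single c 1 : Fin k → ℝ) := by
    funext j
    simp [Finset.sum_apply, Pi.single_apply]
  rw [h1, Pi.add_apply, add_comm]
  congr 1
  conv_lhs => rw [h2]
  rw [map_sum, Finset.sum_apply]
  apply Finset.sum_congr rfl
  intro c _
  rw [map_smul, Pi.smul_apply, smul_eq_mul]

lemma ori_eq_zero {k : ℕ} (p : ι → Fin k → ℝ) (s : Fin (k + 1) → ι)
    (hs : ¬ Function.Injective s) : ori p s = 0 := by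
  unfold Function.Injective at hs
  push Not at hs
  obtain ⟨a, b, hab, hne⟩ := hs
  unfold ori
  apply Matrix.det_zero_of_row_eq hne
  funext c
  simp only [Matrix.of_apply, hab]

lemma sign_eq_of_mul_pos {a b : ℝ} (h : 0 < a * b) : SignType.sign a = SignType.sign b := by
  rcases lt_trichotomy a 0 with ha | ha | ha
  · have hb : b < 0 := by
      by_contra hb
      push Not at hb
      nlinarith
    rw [sign_neg ha, sign_neg hb]
  · subst ha
    simp at h
  · have hb : 0 < b := by
      by_contra hb
      push Not at hb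
      nlinarith
    rw [sign_pos ha, sign_pos hb]

/-- the tuple of three indices and all the further ones -/
def tup {I : Type} (i0 i1 i2 : I) : Fin (m + 3) → I ⊕ Fin m :=
  Fin.cons (Sum.inl i0) (Fin.cons (Sum.inl i1) (Fin.cons (Sum.inl i2) (fun j => Sum.inr j)))

lemma det_tup {I : Type} (X : I ⊕ Fin m → Fin 3 → ℝ) (hX : ∀ j, X (Sum.inr j) = 0)
    (T : I ⊕ Fin m → Fin m → ℝ) (i0 i1 i2 : I) :
    (Matrix.of fun j => row (X (tup i0 i1 i2 j)) (T (tup i0 i1 i2 j))).det =
      (Matrix.of ![X (Sum.inl i0), X (Sum.inl i1), X (Sum.inl i2)]).det *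
      (Matrix.of fun j => T (Sum.inr j)).det := by
  set e : Fin 3 ⊕ Fin m ≃ Fin (m + 3) := (finSumFinEquiv).trans (finCongr (add_comm 3 m)) with he
  have he0 : e (Sum.inl 0) = 0 := by
    apply Fin.ext
    simp [he]
  have he1 : e (Sum.inl 1) = Fin.succ 0 := by
    apply Fin.ext
    simp [he]
  have he2 : e (Sum.inl 2) = Fin.succ (Fin.succ 0) := by
    apply Fin.ext
    simp [he]
    rw [Nat.mod_eq_of_lt (by omega)]
  have her : ∀ j : Fin m, e (Sum.inr j) = Fin.succ (Fin.succ (Fin.succ j)) := by
    intro j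
    apply Fin.ext
    simp [he]
  set M : Matrix (Fin (m + 3)) (Fin (m + 3)) ℝ :=
    Matrix.of fun j => row (X (tup i0 i1 i2 j)) (T (tup i0 i1 i2 j)) with hM
  rw [← Matrix.det_submatrix_equiv_self e M]
  have hblock : M.submatrix e e = Matrix.fromBlocks
      (Matrix.of ![X (Sum.inl i0), X (Sum.inl i1), X (Sum.inl i2)])
      (Matrix.of ![T (Sum.inl i0), T (Sum.inl i1), T (Sum.inl i2)]) 0
      (Matrix.of fun j => T (Sum.inr j)) := by
    ext a b
    rcases a with a | a
    · rcases b with b | b
      · fin_cases a <;> fin_cases b <;>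
          simp only [Fin.zero_eta, Fin.mk_one, Fin.reduceFinMk, Matrix.submatrix_apply, he0, he1,
            he2, Matrix.fromBlocks_apply₁₁, hM, Matrix.of_apply, tup, row, Fin.cons_zero,
            Fin.cons_succ, Matrix.cons_val]
      · fin_cases a <;>
          simp only [Fin.zero_eta, Fin.mk_one, Fin.reduceFinMk, Matrix.submatrix_apply, he0, he1,
            he2, her, Matrix.fromBlocks_apply₁₂, hM, Matrix.of_apply, tup, row, Fin.cons_zero,
            Fin.cons_succ, Matrix.cons_val]
    · rcases b with b | b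
      · fin_cases b <;>
          simp only [Fin.zero_eta, Fin.mk_one, Fin.reduceFinMk, Matrix.submatrix_apply, he0, he1,
            he2, her, Matrix.fromBlocks_apply₂₁, hM, Matrix.of_apply, tup, row, Fin.cons_zero,
            Fin.cons_succ, hX, Pi.zero_apply, Matrix.zero_apply]
      · simp only [Matrix.submatrix_apply, her, Matrix.fromBlocks_apply₂₂, hM, Matrix.of_apply,
          tup, row, Fin.cons_succ]
  rw [hblock, Matrix.det_fromBlocks_zero₂₁]

end

/-- the counterexamples -/
theorem main (m h : ℕ) :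
    ∃ (ι : Type) (_ : Fintype ι) (a : ι → Set (Fin (m + 3) → ℝ)) (p : ι → Fin (m + 2) → ℝ),
      (∀ i, (a i).Nonempty ∧ Convex ℝ (a i) ∧ IsCompact (a i)) ∧
      (∀ i j, i ≠ j → Disjoint (a i) (a j)) ∧ GeneralPosition p ∧
      (∀ B : Finset ι, B.card ≤ h → MetConsistently a p B) ∧
      ¬ MetConsistently a p Finset.univ := by
  classical
  set N : ℕ := h + 1 with hN
  have hN1 : (1 : ℝ) ≤ N := by rw [hN]; push_cast; linarith [show (0 : ℝ) ≤ h by positivity]
  have hBB : 0 < BB N + 1 := by unfold BB CC; positivity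
  set η : ℝ := 1 / (24 * N * (BB N + 1)) with hη
  have hη0 : 0 < η := by rw [hη]; positivity
  set ε : ℝ := 3 * N * η with hεdef
  have hε0 : 0 ≤ ε := by positivity
  have hε : 8 * (ε * (BB N + 1)) ≤ 1 := by
    rw [hεdef, hη]
    have : 8 * (3 * (N : ℝ) * (1 / (24 * N * (BB N + 1))) * (BB N + 1)) = 1 := by
      field_simp
      norm_num
    rw [this]
  have hηε : η ≤ ε := by rw [hεdef]; nlinarith
  -- the base configuration
  set I := Fin (3 * N + 2) with hI
  set κ := Option (Fin N) with hκ
  set S : κ → Set I := fun o => {i | ∀ k : Fin N, o = some k → (i.val < 2 ∨ cl i.val ≠ k.val)} with hS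
  set X : κ → I → Fin 3 → ℝ := fun o => o.elim (fun i => u3 (qx η i) (qy N i))
    (fun k i => u3 (px η (k + 1 / 2) i) (py N (k + 1 / 2) i)) with hX
  set P : I → Fin 3 → ℝ := fun i => u3 (qx η i) (qy N i) with hP
  have hrel : ∀ o : κ, Rel (S o) (X o) P := by
    intro o
    cases o with
    | none =>
      have := adm_rel (adm_label N hη0 hηε Set.univ) (adm_label N hη0 hηε Set.univ) hε0 hε
      exact fun s hs hm => this s hs (fun j => trivial)
    | some k =>
      have := adm_rel (adm_pos N hη0 hεdef.ge k.val k.2 rfl)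
        (adm_label N hη0 hηε {i | i < 2 ∨ cl i ≠ k.val}) hε0 hε
      exact fun s hs hm => this s hs (fun j => hm j k rfl)
  obtain ⟨T, W, hT, hW, hWs, hWdet, hiter⟩ := iter S X P hrel m
  -- the final family
  set f : I ⊕ Fin m → ℝ := Sum.elim (fun _ => 1) (fun _ => 0) with hf
  set TT : I ⊕ Fin m → Fin m → ℝ := Sum.elim T W with hTT
  set L : I ⊕ Fin m → ℝ := fun i => f i + ∑ j, TT i j with hL
  have hL0 : ∀ i, 0 < L i := by
    rintro (i | i)
    · simp only [hL, hf, hTT, Sum.elim_inl]
      have : 0 ≤ ∑ j, T i j := Finset.sum_nonneg fun j _ => (hT i j).le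
      linarith
    · simp only [hL, hf, hTT, Sum.elim_inr]
      linarith [hWs i]
  have hLinv : ∀ s : Fin (m + 3) → I ⊕ Fin m, 0 < ∏ j, (L (s j))⁻¹ :=
    fun s => Finset.prod_pos fun j _ => inv_pos.2 (hL0 _)
  set Bs : I ⊕ Fin m → Set (ℝ × ℝ × ℝ) := Sum.elim (fun i => base N η i) (fun _ => {(0, 0, 0)})
    with hBs
  set a : I ⊕ Fin m → Set (Fin (m + 3) → ℝ) := fun i => emb (L i) (TT i) '' Bs i with ha
  set xP : I ⊕ Fin m → ℝ := Sum.elim (fun i => qx η i) (fun _ => 0) with hxP
  set yP : I ⊕ Fin m → ℝ := Sum.elim (fun i => qy N i) (fun _ => 0) with hyP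
  set p : I ⊕ Fin m → Fin (m + 2) → ℝ := fun i => pt (L i) (xP i) (yP i) (TT i) with hp
  -- the determinants of the labelling points
  have hrowP : ∀ i, row ![f i, xP i, yP i] (TT i) = rows P T W i := by
    rintro (i | i)
    · simp only [hf, hxP, hyP, hTT, Sum.elim_inl, rows, hP, u3]
    · simp only [hf, hxP, hyP, hTT, Sum.elim_inr, rows]
      congr 1
      ext c
      fin_cases c <;> rfl
  have horip : ∀ s : Fin (m + 3) → I ⊕ Fin m, ori p s = (∏ j, (L (s j))⁻¹) *
      (Matrix.of fun j => rows P T W (s j)).det := by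
    intro s
    rw [hp, ori_pt f L xP yP TT (fun i => rfl) hL0]
    simp only [hrowP]
  have hgp : GeneralPosition p := by
    intro s hs
    have h1 := hiter none s hs (fun j i _ k hk => by simp at hk)
    rw [horip]
    apply mul_ne_zero (hLinv s).ne'
    exact right_ne_zero_of_mul h1.ne'
  refine ⟨I ⊕ Fin m, inferInstance, a, p, ?_, ?_, hgp, ?_, ?_⟩
  · -- nonempty, convex, compact
    intro i
    have hne : (Bs i).Nonempty := by
      rcases i with i | i
      · exact ⟨_, mem_base N η 0 le_rfl (by positivity) i⟩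
      · exact ⟨_, rfl⟩
    have hcv : Convex ℝ (Bs i) := by
      rcases i with i | i
      · exact base_convex N η i
      · exact convex_singleton _
    have hcp : IsCompact (Bs i) := by
      rcases i with i | i
      · exact base_compact N hη0 i
      · exact isCompact_singleton
    refine ⟨hne.image _, ?_, ?_⟩
    · rintro _ ⟨u, hu, rfl⟩ _ ⟨v, hv, rfl⟩ α β hα hβ hαβ
      refine ⟨α • u + β • v, hcv hu hv hα hβ hαβ, ?_⟩
      have hβ' : β = 1 - α := by linarith
      subst hβ'
      unfold emb
      ext c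
      simp only [Pi.add_apply, Pi.smul_apply, smul_eq_mul]
      refine Fin.cases ?_ (fun c => ?_) c
      · simp only [Fin.cons_zero, Prod.snd_add, Prod.smul_snd, smul_eq_mul]
        ring
      · refine Fin.cases ?_ (fun c => ?_) c
        · simp only [Fin.cons_zero, Fin.cons_succ, Prod.fst_add, Prod.smul_fst, smul_eq_mul]
          ring
        · refine Fin.cases ?_ (fun c => ?_) c
          · simp only [Fin.cons_zero, Fin.cons_succ, Prod.fst_add, Prod.smul_fst, Prod.snd_add,
              Prod.smul_snd, smul_eq_mul]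
            ring
          · simp only [Fin.cons_succ]
            ring
    · apply hcp.image
      unfold emb
      refine continuous_pi fun c => ?_
      simp only [Pi.smul_apply, smul_eq_mul]
      refine Continuous.mul continuous_const ?_
      refine Fin.cases ?_ (fun c => ?_) c
      · simp only [Fin.cons_zero]
        fun_prop
      · refine Fin.cases ?_ (fun c => ?_) c
        · simp only [Fin.cons_zero, Fin.cons_succ]
          fun_prop
        · refine Fin.cases ?_ (fun c => ?_) c
          · simp only [Fin.cons_zero, Fin.cons_succ]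
            fun_prop
          · simp only [Fin.cons_succ]
            fun_prop
  · -- disjointness
    intro i j hij
    rw [Set.disjoint_left]
    rintro _ ⟨u, hu, rfl⟩ ⟨v, hv, hvu⟩
    have hcoord : ∀ c, (L j)⁻¹ * (Fin.cons v.2.2 (Fin.cons v.1 (Fin.cons v.2.1 (TT j))) :
        Fin (m + 3) → ℝ) c = (L i)⁻¹ * (Fin.cons u.2.2 (Fin.cons u.1 (Fin.cons u.2.1 (TT i))) :
        Fin (m + 3) → ℝ) c := fun c => congrFun hvu c
    have hz := hcoord 0
    have hx := hcoord (Fin.succ 0)
    have hy := hcoord (Fin.succ (Fin.succ 0))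
    have ht : ∀ c : Fin m, (L j)⁻¹ * TT j c = (L i)⁻¹ * TT i c :=
      fun c => hcoord (Fin.succ (Fin.succ (Fin.succ c)))
    simp only [Fin.cons_zero, Fin.cons_succ] at hz hx hy
    have hsum : (L j)⁻¹ * (L j - f j) = (L i)⁻¹ * (L i - f i) := by
      have e1 : ∀ i, L i - f i = ∑ c, TT i c := fun i => by rw [hL]; ring
      rw [e1, e1, Finset.mul_sum, Finset.mul_sum]
      exact Finset.sum_congr rfl fun c _ => ht c
    have hLi := (hL0 i).ne'
    have hLj := (hL0 j).ne'
    rw [mul_sub, mul_sub, inv_mul_cancel₀ hLi, inv_mul_cancel₀ hLj] at hsum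
    have hsum' : (L j)⁻¹ * f j = (L i)⁻¹ * f i := by linarith
    rcases i with i | i <;> rcases j with j | j
    · simp only [hf, Sum.elim_inl, mul_one] at hsum'
      rw [hsum'] at hz hx hy
      have hLi' : (L (Sum.inl i))⁻¹ ≠ 0 := inv_ne_zero hLi
      have e1 := mul_left_cancel₀ hLi' hz
      have e2 := mul_left_cancel₀ hLi' hx
      have e3 := mul_left_cancel₀ hLi' hy
      have e4 : v = u := Prod.ext e2 (Prod.ext e3 e1)
      subst e4
      have hne : i.val ≠ j.val := fun h => hij (congrArg Sum.inl (Fin.ext h))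
      exact base_disjoint N η hne v hu hv
    · simp only [hf, Sum.elim_inl, Sum.elim_inr, mul_one, mul_zero] at hsum'
      exact inv_ne_zero hLi hsum'.symm
    · simp only [hf, Sum.elim_inl, Sum.elim_inr, mul_one, mul_zero] at hsum'
      exact inv_ne_zero hLj hsum'
    · have hne : i ≠ j := fun h => hij (congrArg Sum.inr h)
      have hdet := Matrix.det_mul_column (fun i => (L (Sum.inr i))⁻¹) (Matrix.of W)
      have hzero : (Matrix.of fun i j => (L (Sum.inr i))⁻¹ * (Matrix.of W) i j).det = 0 := by
        apply Matrix.det_zero_of_row_eq hne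
        funext c
        simp only [Matrix.of_apply]
        exact (ht c).symm
      rw [hzero] at hdet
      have h3 : 0 < ∏ i : Fin m, (L (Sum.inr i))⁻¹ :=
        Finset.prod_pos fun j _ => inv_pos.2 (hL0 _)
      exact absurd hdet (mul_pos h3 hWdet).ne
  · -- small subfamilies
    intro B hB
    have hk : ∃ k : Fin N, ∀ i : I, Sum.inl i ∈ B → (i.val < 2 ∨ cl i.val ≠ k.val) := by
      by_contra hcon
      push Not at hcon
      choose g hg using hcon
      have h1 : (Finset.univ : Finset (Fin N)).card ≤ B.card := by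
        apply Finset.card_le_card_of_injOn (fun k => Sum.inl (g k))
        · intro k _
          exact (hg k).1
        · intro k _ k' _ hkk
          have h2 : g k = g k' := Sum.inl.inj hkk
          apply Fin.ext
          rw [← (hg k).2.2, ← (hg k').2.2, h2]
      rw [Finset.card_univ, Fintype.card_fin] at h1
      omega
    obtain ⟨k, hk⟩ := hk
    set θ : ℝ := k + 1 / 2 with hθ
    have hkN : (k.val : ℝ) + 1 ≤ N := by exact_mod_cast k.2
    have hk0 : (0 : ℝ) ≤ k.val := by positivity
    set xk : I ⊕ Fin m → ℝ := Sum.elim (fun i => px η θ i) (fun _ => 0) with hxk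
    set yk : I ⊕ Fin m → ℝ := Sum.elim (fun i => py N θ i) (fun _ => 0) with hyk
    set q : I ⊕ Fin m → Fin (m + 2) → ℝ := fun i => pt (L i) (xk i) (yk i) (TT i) with hq
    have hrowk : ∀ i, row ![f i, xk i, yk i] (TT i) = rows (X (some k)) T W i := by
      rintro (i | i)
      · simp only [hf, hxk, hyk, hTT, Sum.elim_inl, rows, hX, Option.elim_some, u3, hθ]
      · simp only [hf, hxk, hyk, hTT, Sum.elim_inr, rows]
        congr 1
        ext c
        fin_cases c <;> rfl
    have horiq : ∀ s : Fin (m + 3) → I ⊕ Fin m, ori q s = (∏ j, (L (s j))⁻¹) *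
        (Matrix.of fun j => rows (X (some k)) T W (s j)).det := by
      intro s
      rw [hq, ori_pt f L xk yk TT (fun i => rfl) hL0]
      simp only [hrowk]
    set φl : (Fin (m + 2) → ℝ) →ₗ[ℝ] (Fin (m + 3) → ℝ) :=
      { toFun := fun q => Fin.cons (θ * q (Fin.succ 0)) q
        map_add' := by
          intro u v
          ext c
          refine Fin.cases ?_ (fun c => ?_) c
          · simp only [Fin.cons_zero, Pi.add_apply]
            ring
          · simp only [Fin.cons_succ, Pi.add_apply]
        map_smul' := by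
          intro r u
          ext c
          refine Fin.cases ?_ (fun c => ?_) c
          · simp only [Fin.cons_zero, Pi.smul_apply, smul_eq_mul, RingHom.id_apply]
            ring
          · simp only [Fin.cons_succ, Pi.smul_apply, smul_eq_mul, RingHom.id_apply] } with hφl
    refine ⟨φl.toAffineMap, q, ?_, ?_, ?_⟩
    · intro u v huv
      have h1 : (Fin.cons (θ * u (Fin.succ 0)) u : Fin (m + 3) → ℝ) =
          Fin.cons (θ * v (Fin.succ 0)) v := huv
      funext c
      have h2 := congrFun h1 (Fin.succ c)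
      simpa using h2
    · intro i _
      have hφq : φl.toAffineMap (q i) = emb (L i) (TT i) (xk i, yk i, θ * yk i) := by
        have h1 : φl.toAffineMap (q i) =
            (Fin.cons (θ * q i (Fin.succ 0)) (q i) : Fin (m + 3) → ℝ) := rfl
        rw [h1]
        ext c
        refine Fin.cases ?_ (fun c => ?_) c
        · simp only [Fin.cons_zero, hq, pt, emb, Pi.smul_apply, smul_eq_mul, Fin.cons_succ]
          ring
        · simp only [hq, pt, emb, Pi.smul_apply, smul_eq_mul, Fin.cons_succ]
      rw [hφq]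
      refine ⟨_, ?_, rfl⟩
      rcases i with i | i
      · simp only [hBs, hxk, hyk, Sum.elim_inl]
        exact mem_base N η θ (by linarith) (by linarith) i
      · simp only [hBs, hxk, hyk, Sum.elim_inr, mul_zero]
        rfl
    · intro s hs
      by_cases hinj : Function.Injective s
      · have h1 := hiter (some k) s hinj (by
          intro j i hji k' hk'
          have : k' = k := (Option.some.inj hk').symm
          subst this
          exact hk i (hji ▸ hs j))
        apply sign_eq_of_mul_pos
        rw [horip, horiq]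
        have h2 := hLinv s
        have h3 : (∏ j, (L (s j))⁻¹) * (Matrix.of fun j => rows (X (some k)) T W (s j)).det *
            ((∏ j, (L (s j))⁻¹) * (Matrix.of fun j => rows P T W (s j)).det) =
            (∏ j, (L (s j))⁻¹) ^ 2 * ((Matrix.of fun j => rows (X (some k)) T W (s j)).det *
            (Matrix.of fun j => rows P T W (s j)).det) := by ring
        rw [h3]
        positivity
      · rw [ori_eq_zero _ s hinj, ori_eq_zero _ s hinj]
  · -- the whole family
    rintro ⟨φ, q, -, hmem, hsign⟩
    have hmem' : ∀ i, ∃ b ∈ Bs i, φ (q i) = emb (L i) (TT i) b := by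
      intro i
      obtain ⟨b, hb, hb'⟩ := hmem i (Finset.mem_univ i)
      exact ⟨b, hb, hb'.symm⟩
    choose b hb hφ using hmem'
    choose g hg using fun l => affine_coord φ l
    -- coordinates
    have cz : ∀ i, ∑ c, (Fin.cons 1 (q i) : Fin (m + 3) → ℝ) c * g 0 c = (L i)⁻¹ * (b i).2.2 := by
      intro i
      rw [← hg, hφ]
      rfl
    have cx : ∀ i, ∑ c, (Fin.cons 1 (q i) : Fin (m + 3) → ℝ) c * g (Fin.succ 0) c =
        (L i)⁻¹ * (b i).1 := by
      intro i
      rw [← hg, hφ]
      rfl
    have cy : ∀ i, ∑ c, (Fin.cons 1 (q i) : Fin (m + 3) → ℝ) c * g (Fin.succ (Fin.succ 0)) c =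
        (L i)⁻¹ * (b i).2.1 := by
      intro i
      rw [← hg, hφ]
      rfl
    set G : Matrix (Fin (m + 3)) (Fin (m + 3)) ℝ :=
      Matrix.of fun c l => (Fin.cons (Pi.single 0 1 : Fin (m + 3) → ℝ)
        (fun l' => g (Fin.succ l')) : Fin (m + 3) → Fin (m + 3) → ℝ) l c with hG
    have hmat : ∀ s : Fin (m + 3) → I ⊕ Fin m,
        ori q s * G.det = (∏ j, (L (s j))⁻¹) *
          (Matrix.of fun j => row ![f (s j), (b (s j)).1, (b (s j)).2.1] (TT (s j))).det := by
      intro s
      rw [← ori_pt f L (fun i => (b i).1) (fun i => (b i).2.1) TT (fun i => rfl) hL0]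
      unfold ori
      rw [← Matrix.det_mul]
      congr 1
      ext i l
      rw [Matrix.mul_apply]
      simp only [Matrix.of_apply, hG]
      refine Fin.cases ?_ (fun l => ?_) l
      · simp only [Fin.cons_zero, Pi.single_apply]
        simp
      · simp only [Fin.cons_succ]
        rw [← hg, hφ]
        rfl
    -- tuples
    have hbr : ∀ j, b (Sum.inr j) = (0, 0, 0) := fun j => hb (Sum.inr j)
    have hX0 : ∀ j, (fun i => ![f i, (b i).1, (b i).2.1]) (Sum.inr j : I ⊕ Fin m) = 0 := by
      intro j
      ext c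
      simp only [hbr, hf, Sum.elim_inr]
      fin_cases c <;> rfl
    have hXP0 : ∀ j, (fun i => ![f i, xP i, yP i]) (Sum.inr j : I ⊕ Fin m) = 0 := by
      intro j
      ext c
      simp only [hxP, hyP, hf, Sum.elim_inr]
      fin_cases c <;> rfl
    have hTW : (Matrix.of fun j => TT (Sum.inr j)) = Matrix.of W := rfl
    have det3 : ∀ x0 y0 x1 y1 x2 y2 : ℝ, (Matrix.of ![![1, x0, y0], ![1, x1, y1], ![1, x2, y2]]).det =
        (x1 - x0) * (y2 - y0) - (x2 - x0) * (y1 - y0) := by
      intro x0 y0 x1 y1 x2 y2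
      rw [Matrix.det_fin_three]
      simp
      ring
    have hmt : ∀ i0 i1 i2 : I, ori q (tup i0 i1 i2) * G.det = (∏ j, (L (tup i0 i1 i2 j))⁻¹) *
        ((((b (Sum.inl i1)).1 - (b (Sum.inl i0)).1) * ((b (Sum.inl i2)).2.1 - (b (Sum.inl i0)).2.1) -
        ((b (Sum.inl i2)).1 - (b (Sum.inl i0)).1) * ((b (Sum.inl i1)).2.1 - (b (Sum.inl i0)).2.1)) *
        (Matrix.of W).det) := by
      intro i0 i1 i2
      have h1 := det_tup (fun i => ![f i, (b i).1, (b i).2.1]) hX0 TT i0 i1 i2
      rw [hmat, h1, hTW]
      congr 2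
      exact det3 _ _ _ _ _ _
    have hpt : ∀ i0 i1 i2 : I, ori p (tup i0 i1 i2) = (∏ j, (L (tup i0 i1 i2 j))⁻¹) *
        (((qx η i1 - qx η i0) * (qy N i2 - qy N i0) - (qx η i2 - qx η i0) * (qy N i1 - qy N i0)) *
        (Matrix.of W).det) := by
      intro i0 i1 i2
      rw [horip]
      simp only [← hrowP]
      have h1 := det_tup (fun i => ![f i, xP i, yP i]) hXP0 TT i0 i1 i2
      rw [h1, hTW]
      congr 2
      exact det3 _ _ _ _ _ _
    have hposq : ∀ s, 0 < ori p s → 0 < ori q s := by
      intro s hs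
      have h1 := hsign s (fun j => Finset.mem_univ _)
      rw [sign_pos hs] at h1
      exact sign_eq_one_iff.1 h1
    -- the axis
    have hNn : 1 ≤ N := by omega
    set j0 : I := ⟨0, by omega⟩ with hj0
    set j1 : I := ⟨1, by omega⟩ with hj1
    set j2 : I := ⟨2, by omega⟩ with hj2
    have hb0 : b (Sum.inl j0) = (-1, 0, 0) := by
      have := hb (Sum.inl j0)
      simpa [hBs, base, hj0] using this
    have hb1 : b (Sum.inl j1) = (0, 0, 0) := by
      have := hb (Sum.inl j1)
      simpa [hBs, base, hj1] using this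
    have hb2 : b (Sum.inl j2) ∈ base N η 2 := hb (Sum.inl j2)
    have hy2 := base_y N η 2 le_rfl _ hb2
    have hy2pos : 0 < (b (Sum.inl j2)).2.1 := by linarith [hy2.1, YY_nonneg N 2]
    have hp0 : 0 < ori p (tup j0 j1 j2) := by
      rw [hpt]
      apply mul_pos (hLinv _)
      apply mul_pos _ hWdet
      have e1 : qx η (j1 : ℕ) = 0 := by simp [qx, hj1]
      have e2 : qx η (j0 : ℕ) = -1 := by simp [qx, hj0]
      have e3 : qy N (j0 : ℕ) = 0 := by simp [qy, hj0]
      have e4 : qy N (j1 : ℕ) = 0 := by simp [qy, hj1]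
      have e5 := (adm_label N hη0 hηε Set.univ).hy1 2 le_rfl (by omega)
      have e6 : (j2 : ℕ) = 2 := rfl
      rw [e1, e2, e3, e4, e6]
      have := YY_nonneg N 2
      linarith
    have hq0 := hposq _ hp0
    have hG0 : 0 < G.det := by
      have h1 := hmt j0 j1 j2
      rw [hb0, hb1] at h1
      simp only at h1
      have h2 : 0 < ori q (tup j0 j1 j2) * G.det := by
        rw [h1]
        apply mul_pos (hLinv _)
        apply mul_pos _ hWdet
        linarith
      exact (mul_pos_iff_of_pos_left hq0).1 h2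
    -- the slope
    set θ : ℝ := (b (Sum.inl j2)).2.2 / (b (Sum.inl j2)).2.1 with hθ
    have hslope : ∀ i, (b i).2.2 = θ * (b i).2.1 := by
      have hM : (Matrix.of fun j => (Fin.cons 1 (q (tup j0 j1 j2 j)) : Fin (m + 3) → ℝ)).mulVec
          (fun c => g 0 c - θ * g (Fin.succ (Fin.succ 0)) c) = 0 := by
        funext j
        have h1 : (Matrix.of fun j => (Fin.cons 1 (q (tup j0 j1 j2 j)) : Fin (m + 3) → ℝ)).mulVec
            (fun c => g 0 c - θ * g (Fin.succ (Fin.succ 0)) c) j =
            (L (tup j0 j1 j2 j))⁻¹ * ((b (tup j0 j1 j2 j)).2.2 - θ * (b (tup j0 j1 j2 j)).2.1) := by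
          have e1 := cz (tup j0 j1 j2 j)
          have e2 := cy (tup j0 j1 j2 j)
          rw [mul_sub, mul_left_comm, ← e1, ← e2, Finset.mul_sum, ← Finset.sum_sub_distrib]
          simp only [Matrix.mulVec, dotProduct, Matrix.of_apply]
          apply Finset.sum_congr rfl
          intro c _
          ring
        rw [h1, Pi.zero_apply]
        refine Fin.cases ?_ (fun j => ?_) j
        · simp only [tup, Fin.cons_zero, hb0]
          ring
        · refine Fin.cases ?_ (fun j => ?_) j
          · simp only [tup, Fin.cons_zero, Fin.cons_succ, hb1]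
            ring
          · refine Fin.cases ?_ (fun j => ?_) j
            · simp only [tup, Fin.cons_zero, Fin.cons_succ]
              rw [hθ, div_mul_cancel₀ _ hy2pos.ne']
              ring
            · simp only [tup, Fin.cons_succ, hbr]
              ring
      have hne : (Matrix.of fun j => (Fin.cons 1 (q (tup j0 j1 j2 j)) : Fin (m + 3) → ℝ)).det ≠ 0 :=
        hq0.ne'
      have hv := Matrix.eq_zero_of_mulVec_eq_zero hne hM
      intro i
      have h1 : (L i)⁻¹ * (b i).2.2 - θ * ((L i)⁻¹ * (b i).2.1) = 0 := by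
        rw [← cz, ← cy, Finset.mul_sum, ← Finset.sum_sub_distrib]
        apply Finset.sum_eq_zero
        intro c _
        have := congrFun hv c
        simp only [Pi.zero_apply] at this
        linear_combination (Fin.cons 1 (q i) : Fin (m + 3) → ℝ) c * this
      have h2 : (L i)⁻¹ * (b i).2.2 = (L i)⁻¹ * (θ * (b i).2.1) := by linarith
      exact mul_left_cancel₀ (inv_ne_zero (hL0 i).ne') h2
    have hθ01 : 0 ≤ θ ∧ θ ≤ N := by
      have h1 : 0 ≤ (b (Sum.inl j2)).2.2 ∧ (b (Sum.inl j2)).2.2 ≤ N * (b (Sum.inl j2)).2.1 := by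
        have hps : ps 2 = 0 := by decide
        unfold base at hb2
        simp only [show (2 : ℕ) ≠ 0 by norm_num, show (2 : ℕ) ≠ 1 by norm_num, if_false, hps,
          if_true] at hb2
        exact ⟨hb2.2.1, hb2.2.2.1⟩
      constructor
      · exact div_nonneg h1.1 hy2pos.le
      · rw [hθ, div_le_iff₀ hy2pos]
        exact h1.2
    obtain ⟨l, hlN, hl1, hl2⟩ : ∃ l : ℕ, l < N ∧ (l : ℝ) ≤ θ ∧ θ ≤ l + 1 := by
      rcases lt_or_ge θ N with hlt | hge
      · refine ⟨⌊θ⌋₊, (Nat.floor_lt hθ01.1).2 hlt, Nat.floor_le hθ01.1, (Nat.lt_floor_add_one θ).le⟩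
      · have he : θ = N := le_antisymm hθ01.2 hge
        refine ⟨h, by omega, ?_, ?_⟩
        · rw [he, hN]
          push_cast
          linarith
        · rw [he, hN]
          push_cast
          linarith
    set b' : ℕ → ℝ × ℝ × ℝ := fun i => if hi : i < 3 * N + 2 then b (Sum.inl ⟨i, hi⟩) else
      (px η θ i, py N θ i, θ * py N θ i) with hb'
    have hwrong := wrong N hη0 l hl1 hl2 b' (by
      intro i
      simp only [hb']
      split_ifs with hi
      · exact hb (Sum.inl ⟨i, hi⟩)
      · exact mem_base N η θ hθ01.1 hθ01.2 i) (by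
      intro i
      simp only [hb']
      split_ifs with hi
      · exact hslope _
      · rfl)
    have hlt2 : 3 * l + 2 < 3 * N + 2 := by omega
    have hlt3 : 3 * l + 3 < 3 * N + 2 := by omega
    have hlt4 : 3 * l + 4 < 3 * N + 2 := by omega
    have g2 : b' (3 * l + 2) = b (Sum.inl ⟨3 * l + 2, hlt2⟩) := dif_pos hlt2
    have g3 : b' (3 * l + 3) = b (Sum.inl ⟨3 * l + 3, hlt3⟩) := dif_pos hlt3
    have g4 : b' (3 * l + 4) = b (Sum.inl ⟨3 * l + 4, hlt4⟩) := dif_pos hlt4
    unfold D at hwrong
    simp only [g2, g3, g4] at hwrong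
    have hq1 := hmt ⟨3 * l + 2, hlt2⟩ ⟨3 * l + 3, hlt3⟩ ⟨3 * l + 4, hlt4⟩
    have hp1 : 0 < ori p (tup ⟨3 * l + 2, hlt2⟩ ⟨3 * l + 3, hlt3⟩ ⟨3 * l + 4, hlt4⟩) := by
      rw [hpt]
      apply mul_pos (hLinv _)
      apply mul_pos _ hWdet
      exact (adm_label N hη0 hηε Set.univ).tri (3 * l + 2) (by omega) hlt2
        (by unfold ps; omega) trivial
    have hq1pos := mul_pos (hposq _ hp1) hG0
    rw [hq1] at hq1pos
    have h5 := hLinv (tup ⟨3 * l + 2, hlt2⟩ ⟨3 * l + 3, hlt3⟩ ⟨3 * l + 4, hlt4⟩)
    have h6 := (mul_pos_iff_of_pos_left h5).1 hq1pos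
    have h7 := (mul_pos_iff_of_pos_right hWdet).1 h6
    exact absurd h7 (not_lt.2 hwrong)

/-- For every dimension `d = k + 1 ≥ 3` no integer `h` has the Helly property: `h(d)` is infinite. -/
theorem result (k : ℕ) (hk : 2 ≤ k) (h : ℕ) : ¬ HellyProperty k h := by
  obtain ⟨m, rfl⟩ : ∃ m, k = m + 2 := ⟨k - 2, by omega⟩
  intro hH
  obtain ⟨ι, _, a, p, h1, h2, h3, h4, h5⟩ := main m h
  exact h5 (hH ι a p h1 h2 h3 h4)

end Pool.Agent.Results.MP_b157f3_co.NoHellyNumberH18
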